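import Mathlib

set_option autoImplicit false

open MeasureTheory Set

namespace Pool.Agent.Results.MP_3fd8c4_al.CancelFail

/-! ## Equidecomposability with restricted pieces: the definitions -/

/-- A `G`-invariant subalgebra of the power set of `X`. -/
structure InvSubalgebra (G X : Type) [Group G] [MulAction G X] where
  /-- the family of sets -/
  carrier : Set (Set X)
  empty_mem : ∅ ∈ carrier
  univ_mem : Set.univ ∈ carrier
  union_mem : ∀ A ∈ carrier, ∀ B ∈ carrier, A ∪ B ∈ carrier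
  inter_mem : ∀ A ∈ carrier, ∀ B ∈ carrier, A ∩ B ∈ carrier
  compl_mem : ∀ A ∈ carrier, Aᶜ ∈ carrier
  image_mem : ∀ (g : G), ∀ A ∈ carrier, (fun x : X => g • x) '' A ∈ carrier

section Generic

variable {G X : Type} [Group G] [MulAction G X]

/-- The action of `G* = G × Sym(ℕ)` on `X* = X × ℕ`. -/
def act (h : G × Equiv.Perm ℕ) (p : X × ℕ) : X × ℕ := (h.1 • p.1, h.2 p.2)

/-- The family `𝒜*`: the sets `⋃_{m<n} A_m × {m}` with all `A_m ∈ 𝒜`. -/
def InvSubalgebra.star (𝒜 : InvSubalgebra G X) : Set (Set (X × ℕ)) :=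
  {S | ∃ (n : ℕ) (A : ℕ → Set X), (∀ m, m < n → A m ∈ 𝒜.carrier) ∧
    S = {p : X × ℕ | p.2 < n ∧ p.1 ∈ A p.2}}

/-- `P 0, …, P (k-1)` form a partition of `A` (empty pieces are allowed). -/
def IsPartition {Y : Type} {k : ℕ} (P : Fin k → Set Y) (A : Set Y) : Prop :=
  (∀ i j, i ≠ j → Disjoint (P i) (P j)) ∧ (⋃ i, P i) = A

/-- Equidecomposability in `𝒜`: finitely many pieces in `𝒜*`, moved by elements of `G*`. -/
def Equidec (𝒜 : InvSubalgebra G X) (A B : Set (X × ℕ)) : Prop :=
  ∃ (k : ℕ) (P : Fin k → Set (X × ℕ)) (h : Fin k → G × Equiv.Perm ℕ),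
    (∀ i, P i ∈ 𝒜.star) ∧ IsPartition P A ∧ IsPartition (fun i => act (h i) '' P i) B

/-- The height of a set in `X × ℕ`: the least `n` with all levels of the set below `n`. -/
noncomputable def height (A : Set (X × ℕ)) : ℕ := sInf {n | ∀ p ∈ A, p.2 < n}

/-- `B` with all levels shifted upward by `n`. -/
def shiftUp (n : ℕ) (B : Set (X × ℕ)) : Set (X × ℕ) := (fun q : X × ℕ => (q.1, n + q.2)) '' B

/-- Disjoint sum: `A ∪ B'`, with `B'` obtained from `B` by shifting all levels above those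
of `A`. -/
noncomputable def addSet (A B : Set (X × ℕ)) : Set (X × ℕ) := A ∪ shiftUp (height A) B

/-! ## Basic lemmas -/

theorem mem_star_iff (𝒜 : InvSubalgebra G X) (S : Set (X × ℕ)) :
    S ∈ 𝒜.star ↔ (∃ n, ∀ p ∈ S, p.2 < n) ∧ ∀ m, {x | (x, m) ∈ S} ∈ 𝒜.carrier := by
  constructor
  · rintro ⟨n, A, hA, rfl⟩
    refine ⟨⟨n, fun p hp => hp.1⟩, fun m => ?_⟩
    by_cases hm : m < n
    · have : {x | (x, m) ∈ {p : X × ℕ | p.2 < n ∧ p.1 ∈ A p.2}} = A m := by
        ext x; simp [hm]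
      rw [this]; exact hA m hm
    · have : {x | (x, m) ∈ {p : X × ℕ | p.2 < n ∧ p.1 ∈ A p.2}} = ∅ := by
        ext x; simp [hm]
      rw [this]; exact 𝒜.empty_mem
  · rintro ⟨⟨n, hn⟩, h⟩
    refine ⟨n, fun m => {x | (x, m) ∈ S}, fun m _ => h m, ?_⟩
    ext ⟨x, m⟩
    simp only [mem_ofPred_eq]
    exact ⟨fun hx => ⟨hn _ hx, hx⟩, fun hx => hx.2⟩

theorem preimage_mem (𝒜 : InvSubalgebra G X) (g : G) {A : Set X} (hA : A ∈ 𝒜.carrier) :
    {x | g⁻¹ • x ∈ A} ∈ 𝒜.carrier := by
  have := 𝒜.image_mem g A hA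
  convert this using 1
  ext x
  simp only [mem_ofPred_eq, mem_image]
  constructor
  · intro h; exact ⟨_, h, by simp⟩
  · rintro ⟨y, hy, rfl⟩; simpa using hy

theorem preimage_mem' (𝒜 : InvSubalgebra G X) (g : G) {A : Set X} (hA : A ∈ 𝒜.carrier) :
    {x | g • x ∈ A} ∈ 𝒜.carrier := by
  have := preimage_mem 𝒜 g⁻¹ hA
  simpa using this

/-- The multi-level set with flat pieces `S i × {a i}`. -/
def U {ι : Type} (S : ι → Set X) (a : ι → ℕ) : Set (X × ℕ) := {p | ∃ i, p.1 ∈ S i ∧ p.2 = a i}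

/-- The flat pieces `S i × {a i}` are pairwise disjoint. -/
def Dj {ι : Type} (S : ι → Set X) (a : ι → ℕ) : Prop :=
  ∀ i j x, x ∈ S i → x ∈ S j → a i = a j → i = j

/-- moved pieces -/
def mv {ι : Type} (g : ι → G) (S : ι → Set X) (i : ι) : Set X := {x | (g i)⁻¹ • x ∈ S i}

theorem equidec_of_flat (𝒜 : InvSubalgebra G X) {ι : Type} [Finite ι] (S : ι → Set X)
    (a b : ι → ℕ) (g : ι → G) (hS : ∀ i, S i ∈ 𝒜.carrier) (h1 : Dj S a) (h2 : Dj (mv g S) b) :
    Equidec 𝒜 (U S a) (U (mv g S) b) := by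
  obtain ⟨k, ⟨e⟩⟩ := Finite.exists_equiv_fin ι
  refine ⟨k, fun i => {p | p.1 ∈ S (e.symm i) ∧ p.2 = a (e.symm i)},
    fun i => (g (e.symm i), Equiv.swap (a (e.symm i)) (b (e.symm i))), ?_, ⟨?_, ?_⟩, ⟨?_, ?_⟩⟩
  · intro i
    rw [mem_star_iff]
    refine ⟨⟨a (e.symm i) + 1, ?_⟩, ?_⟩
    · rintro p ⟨_, hp⟩; omega
    · intro m
      by_cases hm : m = a (e.symm i)
      · have : {x | (x, m) ∈ {p : X × ℕ | p.1 ∈ S (e.symm i) ∧ p.2 = a (e.symm i)}}
            = S (e.symm i) := by
          ext x; simp [hm]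
        rw [this]; exact hS _
      · have : {x | (x, m) ∈ {p : X × ℕ | p.1 ∈ S (e.symm i) ∧ p.2 = a (e.symm i)}} = ∅ := by
          ext x; simp [hm]
        rw [this]; exact 𝒜.empty_mem
  · intro i j hij
    rw [Set.disjoint_left]
    rintro ⟨x, m⟩ ⟨hx, hm⟩ ⟨hx', hm'⟩
    apply hij
    have := h1 _ _ x hx hx' (hm.symm.trans hm')
    exact e.symm.injective this
  · ext ⟨x, m⟩
    simp only [mem_iUnion, mem_ofPred_eq, U]
    constructor
    · rintro ⟨i, hi⟩; exact ⟨_, hi⟩
    · rintro ⟨i, hi⟩; exact ⟨e i, by simpa using hi⟩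
  · intro i j hij
    rw [Set.disjoint_left]
    rintro ⟨x, m⟩ ⟨⟨y, l⟩, ⟨hy, hl⟩, hyx⟩ ⟨⟨y', l'⟩, ⟨hy', hl'⟩, hyx'⟩
    apply hij
    simp only [act, Prod.mk.injEq] at hyx hyx' hl hl' hy hy'
    obtain ⟨hyx1, hyx2⟩ := hyx
    obtain ⟨hyx1', hyx2'⟩ := hyx'
    subst hl hl'
    rw [Equiv.swap_apply_left] at hyx2 hyx2'
    have := h2 (e.symm i) (e.symm j) x (by simp [mv, ← hyx1, hy]) (by simp [mv, ← hyx1', hy'])
      (hyx2.trans hyx2'.symm)
    exact e.symm.injective this
  · ext ⟨x, m⟩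
    simp only [mem_iUnion, mem_image, mem_ofPred_eq, U, act, Prod.mk.injEq, mv, Prod.exists]
    constructor
    · rintro ⟨i, y, l, ⟨hy, hl⟩, hyx, hlm⟩
      subst hl
      rw [Equiv.swap_apply_left] at hlm
      exact ⟨e.symm i, by simp [← hyx, hy], hlm.symm⟩
    · rintro ⟨i, hi, hm⟩
      exact ⟨e i, (g i)⁻¹ • x, a i, ⟨by simpa using hi, by simp⟩, by simp, by simp [hm]⟩

theorem flat_of_equidec (𝒜 : InvSubalgebra G X) {A B : Set (X × ℕ)} (h : Equidec 𝒜 A B) :
    ∃ (ι : Type) (_ : Finite ι) (S : ι → Set X) (a b : ι → ℕ) (g : ι → G),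
      (∀ i, S i ∈ 𝒜.carrier) ∧ Dj S a ∧ Dj (mv g S) b ∧ A = U S a ∧ B = U (mv g S) b := by
  obtain ⟨k, P, h, hP, ⟨hd, hU⟩, ⟨hd', hU'⟩⟩ := h
  have hb : ∀ i, ∃ n, ∀ p ∈ P i, p.2 < n := fun i => ((mem_star_iff 𝒜 _).1 (hP i)).1
  choose n hn using hb
  refine ⟨Σ i : Fin k, Fin (n i), inferInstance, fun s => {x | (x, (s.2 : ℕ)) ∈ P s.1},
    fun s => s.2, fun s => (h s.1).2 s.2, fun s => (h s.1).1, ?_, ?_, ?_, ?_, ?_⟩
  · intro s
    exact ((mem_star_iff 𝒜 _).1 (hP s.1)).2 _
  · rintro ⟨i, l⟩ ⟨j, l'⟩ x hx hx' hll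
    simp only [mem_ofPred_eq] at hx hx' hll
    rw [← hll] at hx'
    have : i = j := by
      by_contra hij
      exact Set.disjoint_left.1 (hd i j hij) hx hx'
    subst this
    have : l = l' := Fin.ext hll
    rw [this]
  · rintro ⟨i, l⟩ ⟨j, l'⟩ x hx hx' hll
    simp only [mem_ofPred_eq, mv] at hx hx' hll
    have : i = j := by
      by_contra hij
      have m1 : (x, (h i).2 l) ∈ act (h i) '' P i := ⟨_, hx, by simp [act]⟩
      have m2 : (x, (h i).2 l) ∈ act (h j) '' P j := ⟨_, hx', by simp [act, hll]⟩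
      exact Set.disjoint_left.1 (hd' i j hij) m1 m2
    subst this
    have : l = l' := Fin.ext ((h i).2.injective hll)
    rw [this]
  · rw [← hU]
    ext ⟨x, m⟩
    simp only [mem_iUnion, U, mem_ofPred_eq, Sigma.exists]
    constructor
    · rintro ⟨i, hi⟩
      exact ⟨i, ⟨m, hn i _ hi⟩, hi, rfl⟩
    · rintro ⟨i, l, hx, rfl⟩
      exact ⟨i, hx⟩
  · rw [← hU']
    ext ⟨x, m⟩
    simp only [mem_iUnion, U, mem_ofPred_eq, Sigma.exists, mem_image, mv, act, Prod.mk.injEq,
      Prod.exists]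
    constructor
    · rintro ⟨i, y, l, hy, rfl, rfl⟩
      exact ⟨i, ⟨l, hn i _ hy⟩, by simpa using hy, rfl⟩
    · rintro ⟨i, l, hx, rfl⟩
      exact ⟨i, _, _, hx, by simp, rfl⟩

/-- moving by the identity -/
theorem mv_one {ι : Type} (S : ι → Set X) : mv (fun _ : ι => (1 : G)) S = S := by
  funext i; ext x; simp [mv]

/-- Changing levels. -/
theorem relevel (𝒜 : InvSubalgebra G X) {ι : Type} [Finite ι] (S : ι → Set X)
    (a b : ι → ℕ) (hS : ∀ i, S i ∈ 𝒜.carrier) (h1 : Dj S a) (h2 : Dj S b) :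
    Equidec 𝒜 (U S a) (U S b) := by
  have := equidec_of_flat 𝒜 S a b (fun _ => (1 : G)) hS h1 (by rw [mv_one]; exact h2)
  rwa [mv_one] at this

theorem rep_of_star (𝒜 : InvSubalgebra G X) {A : Set (X × ℕ)} (h : A ∈ 𝒜.star) :
    ∃ (ι : Type) (_ : Finite ι) (S : ι → Set X) (a : ι → ℕ),
      (∀ i, S i ∈ 𝒜.carrier) ∧ Dj S a ∧ A = U S a := by
  obtain ⟨n, A', hA, rfl⟩ := h
  refine ⟨Fin n, inferInstance, fun i => A' i, fun i => i, fun i => hA i i.2, ?_, ?_⟩
  · intro i j x _ _ hij; exact Fin.ext hij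
  · ext ⟨x, m⟩
    simp only [mem_ofPred_eq, U]
    constructor
    · rintro ⟨h1, h2⟩; exact ⟨⟨m, h1⟩, h2, rfl⟩
    · rintro ⟨i, h1, rfl⟩; exact ⟨i.2, h1⟩

theorem U_mem_star (𝒜 : InvSubalgebra G X) {ι : Type} [Finite ι] (S : ι → Set X) (a : ι → ℕ)
    (hS : ∀ i, S i ∈ 𝒜.carrier) : U S a ∈ 𝒜.star := by
  have := Fintype.ofFinite ι
  rw [mem_star_iff]
  refine ⟨⟨(∑ i, a i) + 1, ?_⟩, ?_⟩
  · rintro ⟨x, m⟩ ⟨i, _, rfl⟩
    have := Finset.single_le_sum (f := a) (fun i _ => Nat.zero_le _) (Finset.mem_univ i)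
    simp only
    omega
  · intro m
    have key : ∀ s : Finset ι, {x | ∃ i ∈ s, x ∈ S i ∧ m = a i} ∈ 𝒜.carrier := by
      classical
      intro s
      induction s using Finset.induction_on with
      | empty => simpa using 𝒜.empty_mem
      | insert j s hj ih =>
        by_cases hm : m = a j
        · have : {x | ∃ i ∈ insert j s, x ∈ S i ∧ m = a i}
              = S j ∪ {x | ∃ i ∈ s, x ∈ S i ∧ m = a i} := by
            ext x
            simp only [mem_ofPred_eq, mem_union, Finset.mem_insert]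
            constructor
            · rintro ⟨i, rfl | hi, h1, h2⟩
              · exact Or.inl h1
              · exact Or.inr ⟨i, hi, h1, h2⟩
            · rintro (h | ⟨i, hi, h1, h2⟩)
              · exact ⟨j, Or.inl rfl, h, hm⟩
              · exact ⟨i, Or.inr hi, h1, h2⟩
          rw [this]
          exact 𝒜.union_mem _ (hS j) _ ih
        · have : {x | ∃ i ∈ insert j s, x ∈ S i ∧ m = a i}
              = {x | ∃ i ∈ s, x ∈ S i ∧ m = a i} := by
            ext x
            simp only [mem_ofPred_eq, Finset.mem_insert]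
            constructor
            · rintro ⟨i, rfl | hi, h1, h2⟩
              · exact absurd h2 hm
              · exact ⟨i, hi, h1, h2⟩
            · rintro ⟨i, hi, h1, h2⟩
              exact ⟨i, Or.inr hi, h1, h2⟩
          rw [this]
          exact ih
    have := key Finset.univ
    simpa [U] using this

theorem Equidec.refl (𝒜 : InvSubalgebra G X) {A : Set (X × ℕ)} (h : A ∈ 𝒜.star) :
    Equidec 𝒜 A A := by
  obtain ⟨ι, _, S, a, hS, h1, rfl⟩ := rep_of_star 𝒜 h
  exact relevel 𝒜 S a a hS h1 h1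

theorem Equidec.symm {𝒜 : InvSubalgebra G X} {A B : Set (X × ℕ)} (h : Equidec 𝒜 A B) :
    Equidec 𝒜 B A := by
  obtain ⟨ι, _, S, a, b, g, hS, h1, h2, rfl, rfl⟩ := flat_of_equidec 𝒜 h
  have e : mv (fun i => (g i)⁻¹) (mv g S) = S := by
    funext i; ext x; simp [mv]
  have := equidec_of_flat 𝒜 (mv g S) b a (fun i => (g i)⁻¹)
    (fun i => preimage_mem 𝒜 (g i) (hS i)) h2 (by rw [e]; exact h1)
  rwa [e] at this

theorem Equidec.trans {𝒜 : InvSubalgebra G X} {A B C : Set (X × ℕ)} (h : Equidec 𝒜 A B)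
    (h' : Equidec 𝒜 B C) : Equidec 𝒜 A C := by
  obtain ⟨ι, _, S, a, b, g, hS, h1, h2, rfl, hB⟩ := flat_of_equidec 𝒜 h
  obtain ⟨κ, _, S', a', b', g', hS', h1', h2', hB', rfl⟩ := flat_of_equidec 𝒜 h'
  rw [hB] at hB'
  -- common refinement
  let T : {p : ι × κ // b p.1 = a' p.2} → Set X :=
    fun p => {x | x ∈ S p.1.1 ∧ g p.1.1 • x ∈ S' p.1.2}
  let a'' : {p : ι × κ // b p.1 = a' p.2} → ℕ := fun p => a p.1.1
  let b'' : {p : ι × κ // b p.1 = a' p.2} → ℕ := fun p => b' p.1.2
  let g'' : {p : ι × κ // b p.1 = a' p.2} → G := fun p => g' p.1.2 * g p.1.1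
  have hT : ∀ p, T p ∈ 𝒜.carrier := fun p =>
    𝒜.inter_mem _ (hS _) _ (preimage_mem' 𝒜 _ (hS' _))
  have hA : U S a = U T a'' := by
    ext ⟨x, m⟩
    simp only [U, mem_ofPred_eq, T, a'', Subtype.exists, Prod.exists]
    constructor
    · rintro ⟨i, hi, rfl⟩
      have : (g i • x, b i) ∈ U (mv g S) b := ⟨i, by simpa [mv] using hi, rfl⟩
      rw [hB'] at this
      obtain ⟨j, hj, hj'⟩ := this
      exact ⟨i, j, hj', ⟨hi, hj⟩, rfl⟩
    · rintro ⟨i, j, hij, ⟨hi, hj⟩, rfl⟩
      exact ⟨i, hi, rfl⟩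
  have hC : U (mv g' S') b' = U (mv g'' T) b'' := by
    ext ⟨x, m⟩
    simp only [U, mem_ofPred_eq, T, b'', mv, g'', Subtype.exists, Prod.exists]
    constructor
    · rintro ⟨j, hj, rfl⟩
      have : ((g' j)⁻¹ • x, a' j) ∈ U S' a' := ⟨j, hj, rfl⟩
      rw [← hB'] at this
      obtain ⟨i, hi, hi'⟩ := this
      refine ⟨i, j, hi'.symm, ⟨?_, ?_⟩, rfl⟩
      · simpa [mv, mul_smul] using hi
      · simpa [mul_smul] using hj
    · rintro ⟨i, j, hij, ⟨hi, hj⟩, rfl⟩
      refine ⟨j, ?_, rfl⟩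
      simpa [mul_smul] using hj
  have d1 : Dj T a'' := by
    rintro ⟨⟨i, j⟩, hij⟩ ⟨⟨i', j'⟩, hij'⟩ x ⟨hx1, hx2⟩ ⟨hx1', hx2'⟩ e
    simp only [a''] at e hij hij' hx1 hx1' hx2 hx2'
    have : i = i' := h1 _ _ x hx1 hx1' e
    subst this
    have : j = j' := h1' _ _ _ hx2 hx2' (hij.symm.trans hij')
    subst this
    rfl
  have d2 : Dj (mv g'' T) b'' := by
    rintro ⟨⟨i, j⟩, hij⟩ ⟨⟨i', j'⟩, hij'⟩ x hx hx' e
    simp only [mv, T, g'', mem_ofPred_eq, mul_inv_rev, mul_smul, smul_inv_smul] at hx hx'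
    simp only [b''] at e hij hij'
    have : j = j' := h2' _ _ x hx.2 hx'.2 e
    subst this
    have : i = i' := h2 _ _ ((g' j)⁻¹ • x) hx.1 hx'.1 (hij.trans hij'.symm)
    subst this
    rfl
  rw [hA, hC]
  exact equidec_of_flat 𝒜 T a'' b'' g'' hT d1 d2

/-- Equidecomposability as a setoid on `𝒜*`. -/
def typeSetoid (𝒜 : InvSubalgebra G X) : Setoid 𝒜.star where
  r A B := Equidec 𝒜 A.1 B.1
  iseqv := ⟨fun A => Equidec.refl 𝒜 A.2, fun h => h.symm, fun h h' => h.trans h'⟩

/-- The set `𝒮(𝒜)` of types. -/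
def TypeSemigroup (𝒜 : InvSubalgebra G X) : Type := Quotient (typeSetoid 𝒜)

theorem lt_height {A : Set (X × ℕ)} (h : ∃ n, ∀ p ∈ A, p.2 < n) : ∀ p ∈ A, p.2 < height A :=
  Nat.sInf_mem (s := {n | ∀ p ∈ A, p.2 < n}) h

theorem U_add {ι κ : Type} (S : ι → Set X) (a : ι → ℕ) (S' : κ → Set X) (a' : κ → ℕ) (n : ℕ) :
    U S a ∪ shiftUp n (U S' a') = U (Sum.elim S S') (Sum.elim a (fun j => n + a' j)) := by
  ext ⟨x, m⟩
  simp only [U, shiftUp, mem_union, mem_ofPred_eq, mem_image, Sum.exists, Sum.elim_inl,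
    Sum.elim_inr, Prod.mk.injEq, Prod.exists]
  constructor
  · rintro (⟨i, hi⟩ | ⟨y, l, ⟨j, hj, rfl⟩, rfl, rfl⟩)
    · exact Or.inl ⟨i, hi⟩
    · exact Or.inr ⟨j, hj, rfl⟩
  · rintro (⟨i, hi⟩ | ⟨j, hj, rfl⟩)
    · exact Or.inl ⟨i, hi⟩
    · exact Or.inr ⟨x, a' j, ⟨j, hj, rfl⟩, rfl, rfl⟩

theorem Dj_add {ι κ : Type} {S : ι → Set X} {a : ι → ℕ} {S' : κ → Set X} {a' : κ → ℕ} {n : ℕ}
    (h1 : Dj S a) (h2 : Dj S' a') (hn : ∀ p ∈ U S a, p.2 < n) :
    Dj (Sum.elim S S') (Sum.elim a (fun j => n + a' j)) := by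
  rintro (i | i) (j | j) x hx hx' e
  · simp only [Sum.elim_inl] at hx hx' e
    rw [h1 _ _ x hx hx' e]
  · simp only [Sum.elim_inl, Sum.elim_inr] at hx hx' e
    have := hn (x, a i) ⟨i, hx, rfl⟩
    simp only at this
    omega
  · simp only [Sum.elim_inl, Sum.elim_inr] at hx hx' e
    have := hn (x, a j) ⟨j, hx', rfl⟩
    simp only at this
    omega
  · simp only [Sum.elim_inr] at hx hx' e
    rw [h2 _ _ x hx hx' (by omega)]

theorem mv_add {ι κ : Type} (g : ι → G) (g' : κ → G) (S : ι → Set X) (S' : κ → Set X) :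
    mv (Sum.elim g g') (Sum.elim S S') = Sum.elim (mv g S) (mv g' S') := by
  funext i; rcases i with i | i <;> rfl

theorem addSet_mem (𝒜 : InvSubalgebra G X) {A B : Set (X × ℕ)} (hA : A ∈ 𝒜.star)
    (hB : B ∈ 𝒜.star) : addSet A B ∈ 𝒜.star := by
  obtain ⟨ι, _, S, a, hS, h1, rfl⟩ := rep_of_star 𝒜 hA
  obtain ⟨κ, _, S', a', hS', h1', rfl⟩ := rep_of_star 𝒜 hB
  rw [addSet, U_add]
  apply U_mem_star
  rintro (i | i)
  · exact hS i
  · exact hS' i

/-- The key congruence. -/
theorem add_congr' (𝒜 : InvSubalgebra G X) {A A' B B' : Set (X × ℕ)} (h : Equidec 𝒜 A A')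
    (h' : Equidec 𝒜 B B') (n n' : ℕ) (hn : ∀ p ∈ A, p.2 < n) (hn' : ∀ p ∈ A', p.2 < n') :
    Equidec 𝒜 (A ∪ shiftUp n B) (A' ∪ shiftUp n' B') := by
  obtain ⟨ι, _, S, a, b, g, hS, h1, h2, rfl, rfl⟩ := flat_of_equidec 𝒜 h
  obtain ⟨κ, _, S', a', b', g', hS', h1', h2', rfl, rfl⟩ := flat_of_equidec 𝒜 h'
  rw [U_add, U_add, ← mv_add]
  apply equidec_of_flat
  · rintro (i | i)
    · exact hS i
    · exact hS' i
  · exact Dj_add h1 h1' hn
  · rw [mv_add]
    exact Dj_add h2 h2' hn'

theorem height_spec (𝒜 : InvSubalgebra G X) {A : Set (X × ℕ)} (hA : A ∈ 𝒜.star) :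
    ∀ p ∈ A, p.2 < height A := lt_height ((mem_star_iff 𝒜 A).1 hA).1

theorem add_comm' (𝒜 : InvSubalgebra G X) {A B : Set (X × ℕ)} (hA : A ∈ 𝒜.star)
    (hB : B ∈ 𝒜.star) : Equidec 𝒜 (addSet A B) (addSet B A) := by
  have hnA := height_spec 𝒜 hA
  have hnB := height_spec 𝒜 hB
  obtain ⟨ι, _, S, a, hS, h1, hA'⟩ := rep_of_star 𝒜 hA
  obtain ⟨κ, _, S', a', hS', h1', hB'⟩ := rep_of_star 𝒜 hB
  rw [addSet, addSet]
  generalize height A = n at *
  generalize height B = n' at *
  subst hA' hB'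
  rw [U_add, U_add]
  have e : U (Sum.elim S' S) (Sum.elim a' (fun j => n' + a j))
      = U (Sum.elim S S') (Sum.elim (fun j => n' + a j) a') := by
    ext p
    simp only [U, mem_ofPred_eq, Sum.exists, Sum.elim_inl, Sum.elim_inr]
    exact or_comm
  rw [e]
  apply relevel
  · rintro (i | i)
    · exact hS i
    · exact hS' i
  · exact Dj_add h1 h1' hnA
  · have := Dj_add h1' h1 hnB
    rintro (i | i) (j | j) x hx hx' e
    · have := this (Sum.inr i) (Sum.inr j) x hx hx' e
      simp_all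
    · have := this (Sum.inr i) (Sum.inl j) x hx hx' e
      simp_all
    · have := this (Sum.inl i) (Sum.inr j) x hx hx' e
      simp_all
    · have := this (Sum.inl i) (Sum.inl j) x hx hx' e
      simp_all

theorem add_assoc' (𝒜 : InvSubalgebra G X) {A B C : Set (X × ℕ)} (hA : A ∈ 𝒜.star)
    (hB : B ∈ 𝒜.star) (hC : C ∈ 𝒜.star) :
    Equidec 𝒜 (addSet (addSet A B) C) (addSet A (addSet B C)) := by
  have hnA := height_spec 𝒜 hA
  have hnB := height_spec 𝒜 hB
  have hAB := addSet_mem 𝒜 hA hB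
  have hBC := addSet_mem 𝒜 hB hC
  have hnAB := height_spec 𝒜 hAB
  obtain ⟨ι, _, S, a, hS, h1, hA'⟩ := rep_of_star 𝒜 hA
  obtain ⟨κ, _, S', a', hS', h1', hB'⟩ := rep_of_star 𝒜 hB
  obtain ⟨τ, _, S'', a'', hS'', h1'', hC'⟩ := rep_of_star 𝒜 hC
  have e1 : addSet (addSet A B) C = addSet A B ∪ shiftUp (height (addSet A B)) C := rfl
  have e2 : addSet A (addSet B C) = A ∪ shiftUp (height A) (B ∪ shiftUp (height B) C) := rfl
  rw [e1, e2]
  generalize height (addSet A B) = l at *
  simp only [addSet] at *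
  generalize height A = n at *
  generalize height B = n' at *
  subst hA' hB' hC'
  rw [U_add, U_add] at *
  rw [U_add, U_add]
  have e : U (Sum.elim S (Sum.elim S' S''))
        (Sum.elim a fun j => n + Sum.elim a' (fun j => n' + a'' j) j)
      = U (Sum.elim (Sum.elim S S') S'')
        (Sum.elim (Sum.elim a (fun j => n + a' j)) (fun j => n + (n' + a'' j))) := by
    ext p
    simp only [U, mem_ofPred_eq, Sum.exists, Sum.elim_inl, Sum.elim_inr]
    exact or_assoc.symm
  rw [e]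
  apply relevel
  · rintro ((i | i) | i)
    · exact hS i
    · exact hS' i
    · exact hS'' i
  · exact Dj_add (Dj_add h1 h1' hnA) h1'' hnAB
  · have h := Dj_add h1 (Dj_add h1' h1'' hnB) hnA
    intro i j x hx hx' e'
    have key : ∀ i : (ι ⊕ κ) ⊕ τ, Sum.elim (Sum.elim S S') S'' i
        = Sum.elim S (Sum.elim S' S'') (Equiv.sumAssoc ι κ τ i) ∧
        Sum.elim (Sum.elim a (fun j => n + a' j)) (fun j => n + (n' + a'' j)) i
        = (Sum.elim a fun j => n + Sum.elim a' (fun j => n' + a'' j) j)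
          (Equiv.sumAssoc ι κ τ i) := by
      rintro ((i | i) | i) <;> simp
    rw [(key i).1] at hx
    rw [(key j).1] at hx'
    rw [(key i).2, (key j).2] at e'
    exact (Equiv.sumAssoc ι κ τ).injective (h _ _ x hx hx' e')

theorem empty_star (𝒜 : InvSubalgebra G X) : (∅ : Set (X × ℕ)) ∈ 𝒜.star := by
  rw [mem_star_iff]
  exact ⟨⟨0, by simp⟩, fun m => by simpa using 𝒜.empty_mem⟩

theorem empty_add (A : Set (X × ℕ)) : addSet ∅ A = A := by
  have h : height (∅ : Set (X × ℕ)) = 0 := by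
    simp [height]
  simp [addSet, h, shiftUp]

theorem add_empty (A : Set (X × ℕ)) : addSet A ∅ = A := by
  simp [addSet, shiftUp]

/-- Addition of types: `[A] + [B] = [A ∪ B']`, with `B'` obtained from `B` by shifting all levels
above the levels of `A`. -/
noncomputable def typeAdd (𝒜 : InvSubalgebra G X) :
    TypeSemigroup 𝒜 → TypeSemigroup 𝒜 → TypeSemigroup 𝒜 :=
  Quotient.map₂ (fun A B => ⟨addSet A.1 B.1, addSet_mem 𝒜 A.2 B.2⟩)
    (fun A A' h _ _ h' => add_congr' 𝒜 h h' _ _ (height_spec 𝒜 A.2) (height_spec 𝒜 A'.2))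

noncomputable instance (𝒜 : InvSubalgebra G X) : Add (TypeSemigroup 𝒜) := ⟨typeAdd 𝒜⟩

instance (𝒜 : InvSubalgebra G X) : Zero (TypeSemigroup 𝒜) :=
  ⟨Quotient.mk (typeSetoid 𝒜) ⟨∅, empty_star 𝒜⟩⟩

/-- The types form a commutative semigroup, with zero the type of the empty set; `n • α` is the
`n`-fold sum. -/
noncomputable instance (𝒜 : InvSubalgebra G X) : AddCommMonoid (TypeSemigroup 𝒜) where
  add_assoc := by
    rintro ⟨A⟩ ⟨B⟩ ⟨C⟩
    exact Quotient.sound (add_assoc' 𝒜 A.2 B.2 C.2)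
  add_comm := by
    rintro ⟨A⟩ ⟨B⟩
    exact Quotient.sound (add_comm' 𝒜 A.2 B.2)
  zero_add := by
    rintro ⟨A⟩
    apply Quotient.sound
    change Equidec 𝒜 (addSet ∅ A.1) A.1
    rw [empty_add]
    exact Equidec.refl 𝒜 A.2
  add_zero := by
    rintro ⟨A⟩
    apply Quotient.sound
    change Equidec 𝒜 (addSet A.1 ∅) A.1
    rw [add_empty]
    exact Equidec.refl 𝒜 A.2
  nsmul := nsmulRec

/-- The cancellation law: `n α = n β` implies `α = β`, for all `n ≥ 1`. -/
def CancellationLaw (𝒜 : InvSubalgebra G X) : Prop :=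
  ∀ n : ℕ, 1 ≤ n → ∀ α β : TypeSemigroup 𝒜, n • α = n • β → α = β

/-- The type of a subset of `X` belonging to `𝒜` (placed on level `0`). -/
def typeOf (𝒜 : InvSubalgebra G X) (A : Set X) (hA : A ∈ 𝒜.carrier) : TypeSemigroup 𝒜 :=
  Quotient.mk (typeSetoid 𝒜) ⟨U (fun _ : Unit => A) (fun _ => 0), U_mem_star 𝒜 _ _ (fun _ => hA)⟩

/-- If `E` is the disjoint union of `A` and `g A` then `2[A] = [E]`. -/
theorem two_smul_typeOf (𝒜 : InvSubalgebra G X) (A E : Set X) (hA : A ∈ 𝒜.carrier)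
    (hE : E ∈ 𝒜.carrier) (g : G) (hd : ∀ x, x ∈ A → g⁻¹ • x ∉ A)
    (hu : ∀ x, x ∈ E ↔ (x ∈ A ∨ g⁻¹ • x ∈ A)) :
    2 • typeOf 𝒜 A hA = typeOf 𝒜 E hE := by
  rw [two_nsmul]
  apply Quotient.sound
  change Equidec 𝒜 (addSet (U (fun _ : Unit => A) (fun _ => 0)) (U (fun _ : Unit => A)
    (fun _ => 0))) (U (fun _ : Unit => E) (fun _ => 0))
  have hn := height_spec 𝒜 (U_mem_star 𝒜 (fun _ : Unit => A) (fun _ => 0) (fun _ => hA))
  rw [addSet]
  generalize height (U (fun _ : Unit => A) (fun _ => 0)) = n at *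
  rw [U_add]
  have h1 : Dj (fun _ : Unit => A) (fun _ => 0) := fun _ _ _ _ _ _ => rfl
  have e : U (fun _ : Unit => E) (fun _ => 0)
      = U (mv (Sum.elim (fun _ => 1) (fun _ => g))
        (Sum.elim (fun _ : Unit => A) (fun _ : Unit => A))) (fun _ => 0) := by
    ext ⟨x, m⟩
    simp only [U, mem_ofPred_eq, Sum.exists, mv, Sum.elim_inl, Sum.elim_inr, inv_one, one_smul,
      hu x, exists_const]
    tauto
  rw [e]
  apply equidec_of_flat
  · rintro (i | i) <;> exact hA
  · exact Dj_add h1 h1 hn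
  · rintro (i | i) (j | j) x hx hx' _
    · rfl
    · simp only [mv, Sum.elim_inl, Sum.elim_inr, mem_ofPred_eq, inv_one, one_smul] at hx hx'
      exact absurd hx' (hd x hx)
    · simp only [mv, Sum.elim_inl, Sum.elim_inr, mem_ofPred_eq, inv_one, one_smul] at hx hx'
      exact absurd hx (hd x hx')
    · rfl

/-- What equality of the types of two subsets of `X` gives. -/
theorem pieces_of_typeOf_eq (𝒜 : InvSubalgebra G X) (A B : Set X) (hA : A ∈ 𝒜.carrier)
    (hB : B ∈ 𝒜.carrier) (h : typeOf 𝒜 A hA = typeOf 𝒜 B hB) :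
    ∃ (ι : Type) (_ : Fintype ι) (S : ι → Set X) (g : ι → G), (∀ i, S i ∈ 𝒜.carrier) ∧
      (∀ x, ∑ i, (S i).indicator (fun _ => (1 : ℤ)) x = A.indicator (fun _ => (1 : ℤ)) x) ∧
      (∀ x, ∑ i, (S i).indicator (fun _ => (1 : ℤ)) ((g i)⁻¹ • x)
        = B.indicator (fun _ => (1 : ℤ)) x) := by
  classical
  have h' : Equidec 𝒜 (U (fun _ : Unit => A) (fun _ => 0)) (U (fun _ : Unit => B) (fun _ => 0)) :=
    Quotient.exact (s := typeSetoid 𝒜) h
  obtain ⟨ι, hι, S, a, b, g, hS, h1, h2, e1, e2⟩ := flat_of_equidec 𝒜 h'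
  have hF := Fintype.ofFinite ι
  have key : ∀ (S : ι → Set X) (a : ι → ℕ) (A : Set X), Dj S a →
      U (fun _ : Unit => A) (fun _ => 0) = U S a →
      ∀ x, ∑ i, (S i).indicator (fun _ => (1 : ℤ)) x = A.indicator (fun _ => (1 : ℤ)) x := by
    intro S a A h1 e1 x
    have hz : ∀ i, x ∈ S i → a i = 0 ∧ x ∈ A := by
      intro i hi
      have : (x, a i) ∈ U S a := ⟨i, hi, rfl⟩
      rw [← e1] at this
      obtain ⟨_, h, h'⟩ := this
      exact ⟨h', h⟩
    by_cases hx : x ∈ A
    · have : (x, 0) ∈ U S a := by rw [← e1]; exact ⟨(), hx, rfl⟩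
      obtain ⟨i, hi, hi'⟩ := this
      rw [Finset.sum_eq_single i]
      · have hi2 : x ∈ S i := hi
        simp [hx, hi2]
      · intro j _ hj
        rw [Set.indicator_of_notMem]
        intro hxj
        exact hj (h1 j i x hxj hi ((hz j hxj).1.trans hi'))
      · intro h; exact absurd (Finset.mem_univ i) h
    · rw [Set.indicator_of_notMem hx]
      apply Finset.sum_eq_zero
      intro i _
      rw [Set.indicator_of_notMem]
      intro hi
      exact hx (hz i hi).2
  refine ⟨ι, hF, S, g, hS, key S a A h1 e1, ?_⟩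
  intro x
  have := key (mv g S) b B h2 e2 x
  rw [← this]
  rfl

end Generic

/-! ## The circle and the infinite dihedral group -/

/-- The circle `ℝ/ℤ`. -/
abbrev T := AddCircle (1 : ℝ)

/-- The action of the infinite dihedral group on the circle by `x ↦ x + iθ` and
`x ↦ -(x + iθ)`. -/
@[reducible] noncomputable def dihAct (θ : T) : MulAction (DihedralGroup 0) T where
  smul g x := match g with
    | .r i => x + (show ℤ from i) • θ
    | .sr i => -(x + (show ℤ from i) • θ)
  one_smul x := by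
    change x + (0 : ℤ) • θ = x
    simp
  mul_smul := by
    rintro (i | i) (j | j) x
    · change x + (show ℤ from i + j) • θ = x + (show ℤ from j) • θ + (show ℤ from i) • θ
      have : (show ℤ from i + j) = (show ℤ from i) + (show ℤ from j) := rfl
      rw [this, add_zsmul]; abel
    · change -(x + (show ℤ from j - i) • θ) = -(x + (show ℤ from j) • θ) + (show ℤ from i) • θ
      have : (show ℤ from j - i) = (show ℤ from j) - (show ℤ from i) := rfl
      rw [this, sub_zsmul]; abel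
    · change -(x + (show ℤ from i + j) • θ) = -(x + (show ℤ from j) • θ + (show ℤ from i) • θ)
      have : (show ℤ from i + j) = (show ℤ from i) + (show ℤ from j) := rfl
      rw [this, add_zsmul]; abel
    · change x + (show ℤ from j - i) • θ = -(-(x + (show ℤ from j) • θ) + (show ℤ from i) • θ)
      have : (show ℤ from j - i) = (show ℤ from j) - (show ℤ from i) := rfl
      rw [this, sub_zsmul]; abel

instance : NullSingletonClass (volume : Measure T) := ⟨fun x => by
  have := AddCircle.volume_closedBall (1 : ℝ) (x := x) 0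
  simpa using this⟩

theorem qmp_sub_left (c : T) : Measure.QuasiMeasurePreserving (fun x : T => c - x) volume volume :=
  (Measure.measurePreserving_sub_left volume c).quasiMeasurePreserving

theorem qmp_add_right (c : T) : Measure.QuasiMeasurePreserving (fun x : T => x + c) volume volume :=
  (measurePreserving_add_right volume c).quasiMeasurePreserving

theorem qmp_sub_right (c : T) : Measure.QuasiMeasurePreserving (fun x : T => x - c) volume volume :=
  (measurePreserving_sub_right volume c).quasiMeasurePreserving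

/-- `φ + φ∘(-)` is a coboundary `w - w∘R⁻¹` with `w` integer valued and anti-symmetric. -/
def W (θ : T) (φ : T → ℤ) : Prop :=
  ∃ w : T → ℤ, AEMeasurable w volume ∧ (∀ x, φ x + φ (-x) = w x - w (x - θ)) ∧
    ∀ x, w (-x - θ) = - w x

theorem W.add {θ : T} {φ ψ : T → ℤ} (h : W θ φ) (h' : W θ ψ) : W θ (fun x => φ x + ψ x) := by
  obtain ⟨w, hw, h1, h2⟩ := h
  obtain ⟨w', hw', h1', h2'⟩ := h'
  refine ⟨fun x => w x + w' x, hw.add hw', fun x => ?_, fun x => ?_⟩
  · have := h1 x
    have := h1' x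
    linarith
  · have := h2 x
    have := h2' x
    simp only
    linarith

theorem W.neg {θ : T} {φ : T → ℤ} (h : W θ φ) : W θ (fun x => - φ x) := by
  obtain ⟨w, hw, h1, h2⟩ := h
  refine ⟨fun x => - w x, hw.neg, fun x => ?_, fun x => ?_⟩
  · have := h1 x
    linarith
  · have := h2 x
    simp only
    linarith

theorem W.zero (θ : T) : W θ (fun _ => 0) :=
  ⟨fun _ => 0, aemeasurable_const, fun _ => by simp, fun _ => by simp⟩

theorem W.sum {θ : T} {ι : Type} (s : Finset ι) (φ : ι → T → ℤ) (h : ∀ i, W θ (φ i)) :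
    W θ (fun x => ∑ i ∈ s, φ i x) := by
  classical
  induction s using Finset.induction_on with
  | empty => simpa using W.zero θ
  | insert j s hj ih =>
    simp only [Finset.sum_insert hj]
    exact (h j).add ih

theorem W.refl {θ : T} (f : T → ℤ) : W θ (fun x => f x - f (-x)) :=
  ⟨fun _ => 0, aemeasurable_const, fun _ => by simp, fun _ => by simp⟩

theorem W.rot {θ : T} {f : T → ℤ} (hf : AEMeasurable f volume) :
    W θ (fun x => f x - f (x - θ)) := by
  refine ⟨fun x => f x - f (-θ - x), hf.sub (hf.comp_quasiMeasurePreserving (qmp_sub_left (-θ))),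
    fun x => ?_, fun x => ?_⟩
  · have e1 : -θ - (x - θ) = -x := by abel
    have e2 : -θ - x = -x - θ := by abel
    simp only [e1, e2]
    ring
  · have e1 : -θ - (-x - θ) = x := by abel
    have e2 : -θ - x = -x - θ := by abel
    simp only [e1, e2]
    ring

theorem W.rotInt {θ : T} (i : ℤ) : ∀ {f : T → ℤ}, AEMeasurable f volume →
    W θ (fun x => f x - f (x - i • θ)) := by
  induction i using Int.induction_on with
  | zero => intro f _; simpa using W.zero θ
  | succ i ih =>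
    intro f hf
    have h1 := W.rot (θ := θ) hf
    have h2 := ih (f := fun x => f (x - θ)) (hf.comp_quasiMeasurePreserving (qmp_sub_right θ))
    have h3 := h1.add h2
    convert h3 using 2 with x
    have e : x - ((i : ℤ) + 1) • θ = x - (i : ℤ) • θ - θ := by rw [add_zsmul, one_zsmul]; abel
    rw [e]
    ring
  | pred i ih =>
    intro f hf
    have h1 := ih hf
    have h2 := (W.rot (θ := θ) (f := fun x => f (x - (-(i : ℤ) - 1) • θ))
      (hf.comp_quasiMeasurePreserving (qmp_sub_right _))).neg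
    have h3 := h1.add h2
    convert h3 using 2 with x
    have e : x - θ - (-(i : ℤ) - 1) • θ = x - (-(i : ℤ)) • θ := by
      rw [sub_zsmul, one_zsmul]; abel
    rw [e]
    ring

theorem W.group {θ : T} {f : T → ℤ} (hf : AEMeasurable f volume) (g : DihedralGroup 0) :
    letI := dihAct θ
    W θ (fun x => f x - f (g⁻¹ • x)) := by
  let _ := dihAct θ
  rcases g with i | i
  · have h1 := W.rotInt (θ := θ) (show ℤ from i) hf
    convert h1 using 4 with x
    change x + (show ℤ from -i) • θ = x - (show ℤ from i) • θ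
    have : (show ℤ from -i) = -(show ℤ from i) := rfl
    rw [this, neg_zsmul]; abel
  · have h1 := W.refl (θ := θ) f
    have h2 := W.rotInt (θ := θ) (f := fun x => f (-x)) (-(show ℤ from i))
      (hf.comp_quasiMeasurePreserving
        (Measure.measurePreserving_neg volume).quasiMeasurePreserving)
    have h3 := h1.add h2
    convert h3 using 2 with x
    have e : (DihedralGroup.sr i)⁻¹ • x = -(x - (-(show ℤ from i)) • θ) := by
      change -(x + (show ℤ from i) • θ) = _
      rw [neg_zsmul]; abel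
    rw [e]
    ring

/-- The upper half circle. -/
def upper : Set T := {x | 0 < (AddCircle.toCircle x : ℂ).im}

theorem measurable_upper : MeasurableSet upper := by
  have : IsOpen upper := isOpen_lt continuous_const
    (Complex.continuous_im.comp (continuous_subtype_val.comp AddCircle.continuous_toCircle))
  exact this.measurableSet

theorem im_neg (x : T) : (AddCircle.toCircle (-x) : ℂ).im = - (AddCircle.toCircle x : ℂ).im := by
  rw [AddCircle.toCircle_neg, Circle.coe_inv_eq_conj, Complex.conj_im]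

theorem two_eq_zero_of_im (x : T) (h : (AddCircle.toCircle x : ℂ).im = 0) : x + x = 0 := by
  apply AddCircle.injective_toCircle (T := (1 : ℝ)) one_ne_zero
  rw [AddCircle.toCircle_add, AddCircle.toCircle_zero]
  apply Subtype.ext
  have h1 : Complex.normSq (AddCircle.toCircle x : ℂ) = 1 := Circle.normSq_coe _
  rw [Complex.normSq_apply, h] at h1
  apply Complex.ext
  · simp only [Circle.coe_mul, Complex.mul_re, h, Circle.coe_one, Complex.one_re]
    linarith
  · simp [h]

/-- The exceptional set: the points fixed by some reflection of the group. -/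
def exc (θ : T) : Set T := {x | ∃ i : ℤ, x + x = i • θ}

theorem countable_exc (θ : T) : (exc θ).Countable := by
  have : exc θ = ⋃ i : ℤ, {x : T | x + x = i • θ} := by
    ext x; simp [exc]
  rw [this]
  apply Set.countable_iUnion
  intro i
  by_cases h : ∃ y : T, y + y = i • θ
  · obtain ⟨y, hy⟩ := h
    have hf : {u : T | 2 • u = 0}.Finite := AddCircle.finite_torsion (1 : ℝ) two_pos
    have : {x : T | x + x = i • θ} ⊆ (fun u => u + y) '' {u : T | 2 • u = 0} := by
      intro x hx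
      refine ⟨x - y, ?_, by simp⟩
      have hx' : x + x = i • θ := hx
      change 2 • (x - y) = 0
      rw [two_nsmul]
      have : x - y + (x - y) = (x + x) - (y + y) := by abel
      rw [this, hx', hy, sub_self]
    exact ((hf.image _).subset this).countable
  · have : {x : T | x + x = i • θ} = ∅ := by
      ext x
      simp only [mem_ofPred_eq, mem_empty_iff_false, iff_false]
      intro hx
      exact h ⟨x, hx⟩
    rw [this]
    exact Set.countable_empty

theorem exc_add {b : T} {θ : T} (hb : b + b = θ) (x : T) : x + b ∈ exc θ ↔ x ∈ exc θ := by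
  constructor
  · rintro ⟨i, hi⟩
    refine ⟨i - 1, ?_⟩
    rw [sub_zsmul, one_zsmul, ← hi, ← hb]; abel
  · rintro ⟨i, hi⟩
    refine ⟨i + 1, ?_⟩
    rw [add_zsmul, one_zsmul, ← hi, ← hb]; abel

theorem exc_neg {θ : T} (x : T) : -x ∈ exc θ ↔ x ∈ exc θ := by
  constructor
  · rintro ⟨i, hi⟩
    refine ⟨-i, ?_⟩
    rw [neg_zsmul, ← hi]; abel
  · rintro ⟨i, hi⟩
    refine ⟨-i, ?_⟩
    rw [neg_zsmul, ← hi]; abel

/-- The first set. -/
def setA (θ : T) : Set T := upper \ exc θ

/-- The second set, the translate of the first by `b`. -/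
def setB (θ b : T) : Set T := {x | x - b ∈ setA θ}

theorem setA_or (θ x : T) : x ∉ exc θ ↔ (x ∈ setA θ ∨ -x ∈ setA θ) := by
  constructor
  · intro hx
    rcases lt_trichotomy 0 (AddCircle.toCircle x : ℂ).im with h | h | h
    · exact Or.inl ⟨h, hx⟩
    · exact absurd ⟨0, by simpa using two_eq_zero_of_im x h.symm⟩ hx
    · refine Or.inr ⟨?_, by rwa [exc_neg]⟩
      change 0 < (AddCircle.toCircle (-x) : ℂ).im
      rw [im_neg]; linarith
  · rintro (h | h)
    · exact h.2
    · have := h.2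
      rwa [exc_neg] at this

theorem setA_not (θ x : T) (h : x ∈ setA θ) : -x ∉ setA θ := by
  intro h'
  have h1 : 0 < (AddCircle.toCircle x : ℂ).im := h.1
  have h2 : 0 < (AddCircle.toCircle (-x) : ℂ).im := h'.1
  rw [im_neg] at h2
  linarith

theorem setA_add (θ x : T) : (setA θ).indicator (fun _ => (1 : ℤ)) x
    + (setA θ).indicator (fun _ => (1 : ℤ)) (-x) = (exc θ)ᶜ.indicator (fun _ => (1 : ℤ)) x := by
  by_cases hx : x ∈ exc θ
  · have h1 : x ∉ setA θ := fun h => h.2 hx
    have h2 : -x ∉ setA θ := fun h => h.2 (by rwa [exc_neg])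
    simp [h1, h2, hx]
  · rcases (setA_or θ x).1 hx with h | h
    · have h2 := setA_not θ x h
      simp [h, h2, hx]
    · have h2 : x ∉ setA θ := by
        have := setA_not θ (-x) h
        rwa [neg_neg] at this
      simp [h, h2, hx]

theorem measurable_setA (θ : T) : MeasurableSet (setA θ) :=
  measurable_upper.diff (countable_exc θ).measurableSet

theorem measurable_setB (θ b : T) : MeasurableSet (setB θ b) :=
  (measurable_setA θ).preimage (measurable_sub_const b)

/-- The key analytic fact. -/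
theorem not_W {θ b : T} (hb : b + b = θ) (hθ : addOrderOf θ = 0) :
    ¬ W θ (fun x => (setA θ).indicator (fun _ => (1 : ℤ)) x
      - (setB θ b).indicator (fun _ => (1 : ℤ)) x) := by
  rintro ⟨w, hw, h1, h2⟩
  have hB : ∀ x, (setB θ b).indicator (fun _ => (1 : ℤ)) x
      = (setA θ).indicator (fun _ => (1 : ℤ)) (x - b) := fun x => rfl
  simp only [hB] at h1
  have hAe : ∀ x, (setA θ).indicator (fun _ => (1 : ℤ)) x
    + (setA θ).indicator (fun _ => (1 : ℤ)) (-x) = (exc θ)ᶜ.indicator (fun _ => (1 : ℤ)) x :=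
    setA_add θ
  have hAm : AEMeasurable ((setA θ).indicator (fun _ => (1 : ℤ))) volume :=
    (aemeasurable_const).indicator (measurable_setA θ)
  obtain ⟨A, hA⟩ : ∃ A : T → ℤ, A = (setA θ).indicator (fun _ => (1 : ℤ)) := ⟨_, rfl⟩
  obtain ⟨e, he⟩ : ∃ e : T → ℤ, e = (exc θ)ᶜ.indicator (fun _ => (1 : ℤ)) := ⟨_, rfl⟩
  rw [← hA] at h1 hAe hAm
  rw [← he] at hAe
  have heb : ∀ x, e (x + b) = e x := by
    intro x
    by_cases hx : x ∈ exc θ
    · have hx' := (exc_add hb x).2 hx
      simp [he, hx, hx']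
    · have hx' := mt (exc_add hb x).1 hx
      simp [he, hx, hx']
  obtain ⟨F, hF⟩ : ∃ F : T → ℤ, F = fun x => w x - A (x + b) := ⟨_, rfl⟩
  have hFm : AEMeasurable F volume := by
    rw [hF]
    exact hw.sub (hAm.comp_quasiMeasurePreserving (qmp_add_right b))
  -- invariance of `F`
  have hF1 : ∀ x, F (x + (-θ)) = F x := by
    intro x
    have k1 := h1 x
    have k2 := hAe x
    have k3 := hAe (x + b)
    rw [heb x] at k3
    have k4 : A (-(x + b)) = A (-x - b) := by congr 1; abel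
    rw [k4] at k3
    have k5 : F (x + (-θ)) = w (x - θ) - A (x - b) := by
      simp only [hF]
      congr 2
      · abel
      · rw [← hb]; abel
    rw [k5]
    simp only [hF]
    linarith
  have hF2 : ∀ x, F (-θ - x) = - F x - e x := by
    intro x
    have k1 := h2 x
    have k3 := hAe (x + b)
    rw [heb x] at k3
    have k5 : F (-θ - x) = w (-x - θ) - A (-(x + b)) := by
      simp only [hF]
      congr 2
      · abel
      · rw [← hb]; abel
    rw [k5]
    simp only [hF]
    linarith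
  have herg : Ergodic (fun x : T => x + (-θ)) volume := by
    rw [AddCircle.ergodic_add_right, addOrderOf_neg]; exact hθ
  have hcomp : F ∘ (fun x : T => x + (-θ)) =ᵐ[volume] F :=
    Filter.EventuallyEq.of_eq (funext hF1)
  obtain ⟨c, hc0⟩ := herg.ae_eq_const_of_ae_eq_comp₀ hFm.nullMeasurable hcomp
  have hc : ∀ᵐ x ∂(volume : Measure T), F x = c := by
    filter_upwards [hc0] with x hx
    exact hx
  have hc' : ∀ᵐ x ∂(volume : Measure T), F (-θ - x) = c := by
    have h6 := Measure.QuasiMeasurePreserving.ae (qmp_sub_left (-θ)) (p := fun y => F y = c) hc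
    filter_upwards [h6] with x hx
    exact hx
  have hexc : ∀ᵐ x ∂(volume : Measure T), x ∉ exc θ := by
    rw [ae_iff]
    simpa using (countable_exc θ).measure_zero volume
  have hall : ∀ᵐ x ∂(volume : Measure T), F x = c ∧ F (-θ - x) = c ∧ x ∉ exc θ := by
    filter_upwards [hc, hc', hexc] with x y1 y2 y3
    exact ⟨y1, y2, y3⟩
  obtain ⟨x, hx1, hx2, hx3⟩ := hall.exists
  have := hF2 x
  rw [hx2] at this
  have h5 : e x = 1 := by simp [he, hx3]
  have h6 : F x = c := hx1
  omega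

/-- A Vitali set for the rotation by `θ` is not Lebesgue measurable. -/
theorem exists_not_nullMeasurable {θ : T} (hθ : addOrderOf θ = 0) :
    ∃ V : Set T, ¬ NullMeasurableSet V volume := by
  by_contra hcon
  push Not at hcon
  let H : AddSubgroup T := AddSubgroup.zmultiples θ
  let V : Set T := Set.range (Quotient.out : T ⧸ H → T)
  have hV := hcon V
  let Vn : ℤ → Set T := fun n => (fun x : T => x - n • θ) ⁻¹' V
  have hθ' : ∀ n : ℤ, n • θ = 0 → n = 0 := by
    intro n hn
    have h1 : (addOrderOf θ : ℤ) ∣ n := addOrderOf_dvd_iff_zsmul_eq_zero.2 hn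
    rw [hθ] at h1
    simpa using h1
  have hmp : ∀ n : ℤ, MeasurePreserving (fun x : T => x - n • θ) volume volume :=
    fun n => measurePreserving_sub_right volume _
  have hdisj : Pairwise (Function.onFun Disjoint Vn) := by
    intro m n hmn
    rw [Function.onFun, Set.disjoint_left]
    rintro x ⟨q, hq⟩ ⟨q', hq'⟩
    apply hmn
    have hq1 : (q.out : T) = x - m • θ := hq
    have hq2 : (q'.out : T) = x - n • θ := hq'
    have h1 : q = QuotientAddGroup.mk (x - m • θ) := by
      rw [← hq1]; exact (Quotient.out_eq' q).symm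
    have h2 : q' = QuotientAddGroup.mk (x - n • θ) := by
      rw [← hq2]; exact (Quotient.out_eq' q').symm
    have h3 : q = q' := by
      rw [h1, h2, QuotientAddGroup.eq]
      refine AddSubgroup.mem_zmultiples_iff.2 ⟨m - n, ?_⟩
      rw [sub_zsmul]; abel
    rw [h3, hq2] at hq1
    have h4 : (m - n) • θ = 0 := by
      have h5 : n • θ = m • θ := sub_right_inj.1 hq1
      rw [sub_zsmul, h5]
      simp
    have := hθ' _ h4
    omega
  have hunion : (⋃ n, Vn n) = Set.univ := by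
    rw [Set.eq_univ_iff_forall]
    intro x
    have h1 : (QuotientAddGroup.mk ((QuotientAddGroup.mk x : T ⧸ H).out) : T ⧸ H)
        = QuotientAddGroup.mk x := Quotient.out_eq' _
    rw [QuotientAddGroup.eq] at h1
    obtain ⟨n, hn⟩ := AddSubgroup.mem_zmultiples_iff.1 h1
    refine Set.mem_iUnion.2 ⟨n, ⟨(QuotientAddGroup.mk x : T ⧸ H), ?_⟩⟩
    change _ = x - n • θ
    rw [hn]; abel
  have hmeas : volume (⋃ n, Vn n) = ∑' n, volume (Vn n) :=
    measure_iUnion₀ (fun m n hmn => (hdisj hmn).aedisjoint) (fun n => hcon _)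
  have hm : ∀ n, volume (Vn n) = volume V := fun n => (hmp n).measure_preimage hV
  rw [hunion, AddCircle.measure_univ] at hmeas
  simp only [hm] at hmeas
  by_cases h0 : volume V = 0
  · rw [h0] at hmeas
    simp at hmeas
  · rw [ENNReal.tsum_const_eq_top_of_ne_zero h0] at hmeas
    simp at hmeas

theorem image_eq {G X : Type} [Group G] [MulAction G X] (g : G) (A : Set X) :
    (fun x : X => g • x) '' A = {x | g⁻¹ • x ∈ A} := by
  ext x
  simp only [mem_ofPred_eq, mem_image]
  constructor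
  · rintro ⟨y, hy, rfl⟩; simpa using hy
  · intro h; exact ⟨_, h, by simp⟩

/-- **The cancellation law fails for equidecomposability with Borel or Lebesgue measurable
pieces.** For every irrational `a`, the infinite dihedral group acts on the circle `ℝ/ℤ` by the
isometries `x ↦ x + i a` and `x ↦ -(x + i a)`; the Borel sets and the Lebesgue measurable sets
form invariant subalgebras, and every invariant subalgebra `𝒜` between the two is proper and has
types `α ≠ β` with `2α = 2β`. -/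
theorem result (a : ℝ) (ha : Irrational a) :
    ∃ _ : MulAction (DihedralGroup 0) (AddCircle (1 : ℝ)),
      (∀ (i : ℤ) (x : AddCircle (1 : ℝ)),
        (DihedralGroup.r i : DihedralGroup 0) • x = x + ((i * a : ℝ) : AddCircle (1 : ℝ))) ∧
      (∀ (i : ℤ) (x : AddCircle (1 : ℝ)),
        (DihedralGroup.sr i : DihedralGroup 0) • x = -(x + ((i * a : ℝ) : AddCircle (1 : ℝ)))) ∧
      (∃ 𝓑 : InvSubalgebra (DihedralGroup 0) (AddCircle (1 : ℝ)),
        ∀ s, s ∈ 𝓑.carrier ↔ MeasurableSet s) ∧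
      (∃ 𝓛 : InvSubalgebra (DihedralGroup 0) (AddCircle (1 : ℝ)),
        ∀ s, s ∈ 𝓛.carrier ↔ NullMeasurableSet s volume) ∧
      ∀ 𝒜 : InvSubalgebra (DihedralGroup 0) (AddCircle (1 : ℝ)),
        (∀ s, MeasurableSet s → s ∈ 𝒜.carrier) →
        (∀ s, s ∈ 𝒜.carrier → NullMeasurableSet s volume) →
          𝒜.carrier ≠ Set.univ ∧ ¬ CancellationLaw 𝒜 ∧
            ∃ α β : TypeSemigroup 𝒜, 2 • α = 2 • β ∧ α ≠ β := by
  -- the rotation angle
  obtain ⟨θ, hθa⟩ : ∃ θ : T, θ = (a : AddCircle (1 : ℝ)) := ⟨_, rfl⟩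
  obtain ⟨b, hb⟩ : ∃ b : T, b + b = θ := by
    refine ⟨((a / 2 : ℝ) : AddCircle (1 : ℝ)), ?_⟩
    rw [hθa, ← AddCircle.coe_add]
    congr 1; ring
  have hθ : addOrderOf θ = 0 := by
    rw [addOrderOf_eq_zero_iff, hθa, AddCircle.not_isOfFinAddOrder_iff_forall_rat_ne_div]
    intro q hq
    apply ha
    exact ⟨q, by simpa using hq⟩
  have hcoe : ∀ i : ℤ, ((i * a : ℝ) : AddCircle (1 : ℝ)) = i • θ := by
    intro i
    rw [hθa, ← AddCircle.coe_zsmul, zsmul_eq_mul]
  let act := dihAct θ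
  have hr : ∀ (i : ℤ) (x : T), (DihedralGroup.r i : DihedralGroup 0) • x = x + i • θ :=
    fun i x => rfl
  have hsr : ∀ (i : ℤ) (x : T), (DihedralGroup.sr i : DihedralGroup 0) • x = -(x + i • θ) :=
    fun i x => rfl
  have hmp : ∀ g : DihedralGroup 0, MeasurePreserving (fun x : T => g • x) volume volume := by
    rintro (i | i)
    · exact measurePreserving_add_right volume _
    · exact (Measure.measurePreserving_neg volume).comp (measurePreserving_add_right volume _)
  refine ⟨act, ?_, ?_, ?_, ?_, ?_⟩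
  · intro i x; rw [hcoe, hr]
  · intro i x; rw [hcoe, hsr]
  · refine ⟨⟨{s | MeasurableSet s}, ?_, ?_, ?_, ?_, ?_, ?_⟩, ?_⟩
    all_goals simp only [mem_ofPred_eq]
    · exact MeasurableSet.empty
    · exact MeasurableSet.univ
    · exact fun A hA B hB => MeasurableSet.union hA hB
    · exact fun A hA B hB => MeasurableSet.inter hA hB
    · exact fun A hA => MeasurableSet.compl hA
    · intro g A hA
      rw [image_eq]
      exact (hmp g⁻¹).measurable hA
    · exact fun s => trivial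
  · refine ⟨⟨{s | NullMeasurableSet s volume}, ?_, ?_, ?_, ?_, ?_, ?_⟩, ?_⟩
    all_goals simp only [mem_ofPred_eq]
    · exact MeasurableSet.empty.nullMeasurableSet
    · exact MeasurableSet.univ.nullMeasurableSet
    · exact fun A hA B hB => NullMeasurableSet.union hA hB
    · exact fun A hA B hB => NullMeasurableSet.inter hA hB
    · exact fun A hA => NullMeasurableSet.compl hA
    · intro g A hA
      rw [image_eq]
      exact NullMeasurableSet.preimage hA (hmp g⁻¹).quasiMeasurePreserving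
    · exact fun s => trivial
  · intro 𝒜 h1 h2
    have hAm := h1 _ (measurable_setA θ)
    have hBm := h1 _ (measurable_setB θ b)
    have hEm := h1 _ (countable_exc θ).measurableSet.compl
    have hne : typeOf 𝒜 (setA θ) hAm ≠ typeOf 𝒜 (setB θ b) hBm := by
      intro heq
      obtain ⟨ι, _, S, g, hS, e1, e2⟩ := pieces_of_typeOf_eq 𝒜 _ _ hAm hBm heq
      apply not_W hb hθ
      have := W.sum (θ := θ) Finset.univ
        (fun (i : ι) (x : T) => (S i).indicator (fun _ => (1 : ℤ)) x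
          - (S i).indicator (fun _ => (1 : ℤ)) ((g i)⁻¹ • x))
        (fun i => W.group (aemeasurable_const.indicator₀ (h2 _ (hS i))) (g i))
      convert this using 2 with x
      rw [Finset.sum_sub_distrib, e1, e2]
    have heqA : 2 • typeOf 𝒜 (setA θ) hAm = typeOf 𝒜 (exc θ)ᶜ hEm := by
      refine two_smul_typeOf 𝒜 _ _ hAm hEm (DihedralGroup.sr 0) ?_ ?_
      · intro x hx
        have : (DihedralGroup.sr 0 : DihedralGroup 0)⁻¹ • x = -x := by
          change -(x + (0 : ℤ) • θ) = -x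
          simp
        rw [this]
        exact setA_not θ x hx
      · intro x
        have : (DihedralGroup.sr 0 : DihedralGroup 0)⁻¹ • x = -x := by
          change -(x + (0 : ℤ) • θ) = -x
          simp
        rw [this]
        exact setA_or θ x
    have heqB : 2 • typeOf 𝒜 (setB θ b) hBm = typeOf 𝒜 (exc θ)ᶜ hEm := by
      have key : ∀ x : T, (DihedralGroup.sr (-1) : DihedralGroup 0)⁻¹ • x - b = -(x - b) := by
        intro x
        change -(x + (-1 : ℤ) • θ) - b = -(x - b)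
        rw [← hb]
        simp only [neg_smul, one_smul]
        abel
      refine two_smul_typeOf 𝒜 _ _ hBm hEm (DihedralGroup.sr (-1)) ?_ ?_
      · intro x hx
        change ¬ ((DihedralGroup.sr (-1) : DihedralGroup 0)⁻¹ • x - b ∈ setA θ)
        rw [key]
        exact setA_not θ _ hx
      · intro x
        change x ∉ exc θ ↔ (x - b ∈ setA θ ∨
          (DihedralGroup.sr (-1) : DihedralGroup 0)⁻¹ • x - b ∈ setA θ)
        rw [key, ← setA_or]
        have := exc_add hb (x - b)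
        rw [sub_add_cancel] at this
        rw [this]
    have heq2 := heqA.trans heqB.symm
    refine ⟨?_, ?_, _, _, heq2, hne⟩
    · intro huniv
      obtain ⟨V, hV⟩ := exists_not_nullMeasurable hθ
      exact hV (h2 V (by rw [huniv]; trivial))
    · intro hc
      exact hne (hc 2 (by norm_num) _ _ heq2)

end Pool.Agent.Results.MP_3fd8c4_al.CancelFail
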